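import Pool.Agent.W516.K3.Defs3

set_option autoImplicit false

/-!
# Task DK-KTOT of project DK
-/

namespace Pool.Agent.W605.DK

open Module TensorProduct
open Pool.Agent.W516.K3

theorem T_KTOT : S_PART → S_KTOT := by
  intro hP k T _ _ _ _ _ c κ _ _ φ hc x hx
  classical
  set X : Module.End k ((Fin c → k) × T) :=
    (LinearMap.inr k (Fin c → k) T) ∘ₗ x ∘ₗ (LinearMap.snd k (Fin c → k) T) with hX
  have hX1 : ∀ w, X w = (0, x w.2) := by
    intro w
    simp [hX]
  have key : ∀ B : Finset κ, ∀ v : κ → (Fin c → k) × T,
      (∀ l, l ∉ B → (∃ i : Fin c, v l = (Pi.single i 1, 0)) ∨ (∃ t : T, v l = (0, t))) →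
      ∑ j, φ (Function.update v j (X (v j))) = 0 := by
    intro B
    induction B using Finset.induction_on with
    | empty =>
      intro v hv
      set A : Finset κ := Finset.univ.filter fun l => ∃ i : Fin c, v l = (Pi.single i 1, 0) with hA
      have hA1 : ∀ l, l ∈ A → ∃ i : Fin c, v l = (Pi.single i 1, 0) := fun l hl => (Finset.mem_filter.1 hl).2
      have hA2 : ∀ l, l ∉ A → ∃ t : T, v l = (0, t) := by
        intro l hl
        rcases hv l (Finset.notMem_empty l) with h | h
        · exact absurd (Finset.mem_filter.2 ⟨Finset.mem_univ l, h⟩) hl
        · exact h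
      set j : κ → Fin c := fun l => if h : l ∈ A then (hA1 l h).choose else ⟨0, hc⟩ with hj
      have hjA : ∀ l, l ∈ A → v l = (Pi.single (j l) 1, 0) := by
        intro l hl
        have : j l = (hA1 l hl).choose := by simp [hj, hl]
        rw [this]
        exact (hA1 l hl).choose_spec
      set t : {l : κ // l ∉ A} → T := fun l => (v l).2 with ht
      have hvm : ∀ l, v l = mixed (k := k) A j t l := by
        intro l
        unfold mixed
        by_cases hl : l ∈ A
        · rw [dif_pos hl]; exact hjA l hl
        · rw [dif_neg hl]
          obtain ⟨s, hs⟩ := hA2 l hl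
          simp [ht, hs]
      obtain ⟨ψ, hψ⟩ := hP k T c κ φ A j
      have h0 := hx A j ψ hψ t
      have h1 : ∀ l (hl : l ∉ A), φ (Function.update v l (X (v l))) =
          ψ (Function.update t ⟨l, hl⟩ (x (t ⟨l, hl⟩))) := by
        intro l hl
        rw [hψ]
        congr 1
        funext m
        unfold mixed
        by_cases hm : m ∈ A
        · rw [dif_pos hm]
          have hml : m ≠ l := fun h => hl (h ▸ hm)
          rw [Function.update_of_ne hml]
          exact hjA m hm
        · rw [dif_neg hm]
          by_cases hml : m = l
          · subst hml
            rw [Function.update_self, Function.update_self, hX1]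
          · rw [Function.update_of_ne hml, Function.update_of_ne (by
              intro h; exact hml (congrArg Subtype.val h))]
            obtain ⟨s, hs⟩ := hA2 m hm
            simp [ht, hs]
      have h2 : ∀ l, l ∈ A → φ (Function.update v l (X (v l))) = 0 := by
        intro l hl
        have : X (v l) = 0 := by
          rw [hX1, hjA l hl]
          simp
        rw [this]
        exact φ.map_update_zero _ _
      rw [← Fintype.sum_subtype_add_sum_subtype (fun l => l ∈ A)]
      rw [Finset.sum_eq_zero (fun l _ => h2 l.1 l.2), zero_add]
      rw [← h0]
      exact Finset.sum_congr rfl fun l _ => h1 l.1 l.2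
    | insert a B ha ih =>
      intro v hv
      let G : ((Fin c → k) × T) →ₗ[k] k :=
        ∑ j, if j = a then (φ.toLinearMap v a) ∘ₗ X else φ.toLinearMap (Function.update v j (X (v j))) a
      have hG : ∀ w, ∑ j, φ (Function.update (Function.update v a w) j (X (Function.update v a w j))) = G w := by
        intro w
        simp only [G, LinearMap.sum_apply]
        refine Finset.sum_congr rfl fun j _ => ?_
        by_cases hja : j = a
        · subst hja
          rw [if_pos rfl]
          simp
        · rw [if_neg hja, Function.update_of_ne hja, Function.update_comm (Ne.symm hja)]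
          simp
      have hgen : ∀ w : (Fin c → k) × T, ((∃ i : Fin c, w = (Pi.single i 1, 0)) ∨ (∃ t : T, w = (0, t))) →
          G w = 0 := by
        intro w hw
        rw [← hG w]
        apply ih
        intro l hl
        by_cases hla : l = a
        · subst hla
          rw [Function.update_self]; exact hw
        · rw [Function.update_of_ne hla]
          exact hv l (by rw [Finset.mem_insert]; tauto)
      have hG0 : G = 0 := by
        apply LinearMap.prod_ext
        · apply LinearMap.pi_ext'
          intro i
          apply LinearMap.ext_ring
          simpa using hgen (Pi.single i 1, 0) (Or.inl ⟨i, rfl⟩)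
        · apply LinearMap.ext
          intro t
          simpa using hgen (0, t) (Or.inr ⟨t, rfl⟩)
      have := hG (v a)
      rw [hG0, Function.update_eq_self] at this
      simpa using this
  intro v
  exact key Finset.univ v (fun l hl => absurd (Finset.mem_univ l) hl)

end Pool.Agent.W605.DK
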